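import Mathlib
import Pool.Agent.HuaOne84.Poly

/-!
# Two points of a Hua system over any field: good polynomials and the ring of fractions
-/

set_option autoImplicit false

open Polynomial

namespace Pool.Agent.HuaTwo61

open Pool.Agent.HuaTop84 Pool.Agent.HuaVal Pool.Agent.HuaOne84 Pool.Agent.HuaOne84.HS

variable {A : Type} [AddCommGroup A] {H : HS A}
variable {K : Type} [Field K] [Module K A]

/-- `U (f(x)) g(x) = (f² g)(x)` for all `g`, and `f(x) ≠ 0` -/
def Good (K : Type) [Field K] [Module K A] (H : HS A) (x : A) (f : K[X]) : Prop :=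
  psi K H x f ≠ 0 ∧ ∀ g : K[X], H.U (psi K H x f) (psi K H x g) = psi K H x (f * f * g)

theorem U_zero' (z : A) : H.U 0 z = 0 := by rw [H.U_zero]; rfl

theorem Good.sq {x : A} {t k : K[X]} (ht : Good K H x t) (hk : Good K H x k) :
    Good K H x (t * t * k) := by
  have h1 : psi K H x (t * t * k) = H.U (psi K H x t) (psi K H x k) := (ht.2 k).symm
  refine ⟨?_, ?_⟩
  · rw [h1]
    intro h
    exact hk.1 (H.U_inj ht.1 h)
  · intro g
    rw [h1, H.U_U, ht.2, hk.2, ht.2]
    congr 1
    ring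

theorem Good.const_mul (S : H.Scal K) {x : A} {f : K[X]} (hf : Good K H x f) {c : K} (hc : c ≠ 0) :
    Good K H x (C c * f) := by
  refine ⟨?_, ?_⟩
  · rw [psi_C_mul]
    exact smul_ne_zero hc hf.1
  · intro g
    rw [psi_C_mul, S.U_smul_left, hf.2, ← psi_C_mul]
    congr 1
    rw [C_mul]
    ring

theorem Good.one {x : A} : Good K H x (1 : K[X]) := by
  refine ⟨?_, ?_⟩
  · rw [psi_one]
    exact H.one_ne
  · intro g
    rw [psi_one, H.U_one, one_mul, one_mul]

theorem Good.varX (S : H.Scal K) {x : A} (hx : ∀ s : K, x - s • H.one ≠ 0) :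
    Good K H x (X : K[X]) := by
  refine ⟨?_, ?_⟩
  · rw [psi_X]
    have := hx 0
    rwa [zero_smul, sub_zero] at this
  · intro g
    rw [psi_X, U_psi S hx, pow_two]

theorem Good.varX_pow (S : H.Scal K) {x : A} (hx : ∀ s : K, x - s • H.one ≠ 0) :
    ∀ m : ℕ, Good K H x (X ^ m : K[X])
  | 0 => by rw [pow_zero]; exact Good.one
  | 1 => by rw [pow_one]; exact Good.varX S hx
  | (m + 2) => by
    have h := (Good.varX S hx).sq (Good.varX_pow S hx m)
    have e : (X ^ (m + 2) : K[X]) = X * X * X ^ m := by ring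
    rw [e]
    exact h

/-- The element `a / b`. -/
noncomputable def vl (K : Type) [Field K] [Module K A] (H : HS A) (x : A) (a b : K[X]) : A :=
  H.U (H.inv (psi K H x b)) (psi K H x (a * b))

theorem Gen.vl {x : A} (a b : K[X]) : H.Gen K x (vl K H x a b) := (Gen.psi b).inv.U (Gen.psi _)

/-- admissible sets of denominators -/
structure Adm (H : HS A) (x : A) (W : Set K[X]) : Prop where
  good : ∀ w ∈ W, Good K H x w
  mul : ∀ a ∈ W, ∀ b ∈ W, a * b ∈ W
  const : ∀ c : K, c ≠ 0 → C c ∈ W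
  hX : (X : K[X]) ∈ W

section frac

variable {x : A} {W : Set K[X]} (hW : Adm H x W)

include hW

theorem Adm.one : (1 : K[X]) ∈ W := by
  have := hW.const 1 one_ne_zero
  rwa [C_1] at this

theorem Adm.zero_not : (0 : K[X]) ∉ W := by
  intro h
  apply (hW.good 0 h).1
  exact map_zero _

theorem Adm.ne_zero {w : K[X]} (hw : w ∈ W) : w ≠ 0 := by
  rintro rfl
  exact hW.zero_not hw

theorem Adm.U_mul (S : H.Scal K) {b c : K[X]} (hb : b ∈ W) (hc : c ∈ W) {z : A}
    (hz : H.Gen K x z) : H.U (psi K H x b) (H.U (psi K H x c) z) = H.U (psi K H x (b * c)) z := by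
  have hbc := hW.mul b hb c hc
  have h1 := (SP.ofU S (hW.good b hb).1).comp (SP.ofU S (hW.good c hc).1)
  have h2 := SP.ofU S (hW.good _ hbc).1
  refine rigid h1 h2 ?_ ?_ hz
  · rw [← psi_one (K := K) (H := H) (x := x), (hW.good c hc).2, (hW.good b hb).2,
      (hW.good _ hbc).2]
    congr 1
    ring
  · have e : x = psi K H x (X : K[X]) := psi_X.symm
    have h3 : H.U (psi K H x c) x = H.U (psi K H x c) (psi K H x (X : K[X])) := by
      rw [← e]
    have h4 : H.U (psi K H x (b * c)) x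
        = H.U (psi K H x (b * c)) (psi K H x (X : K[X])) := by
      rw [← e]
    rw [h3, h4, (hW.good c hc).2, (hW.good b hb).2, (hW.good _ hbc).2]
    congr 1
    ring

theorem Adm.U_comm (S : H.Scal K) {b c : K[X]} (hb : b ∈ W) (hc : c ∈ W) {z : A}
    (hz : H.Gen K x z) : H.U (psi K H x b) (H.U (psi K H x c) z) =
      H.U (psi K H x c) (H.U (psi K H x b) z) := by
  rw [hW.U_mul S hb hc hz, hW.U_mul S hc hb hz, mul_comm]

theorem Adm.U_val {a b : K[X]} (hb : b ∈ W) :
    H.U (psi K H x b) (vl K H x a b) = psi K H x (a * b) := H.U_inv_right _ _ (hW.good b hb).1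

theorem Adm.val_congr (S : H.Scal K) {a b a' b' : K[X]} (hb : b ∈ W) (hb' : b' ∈ W)
    (h : a * b' = a' * b) : vl K H x a b = vl K H x a' b' := by
  apply H.U_inj' (hW.good b hb).1
  apply H.U_inj' (hW.good b' hb').1
  rw [hW.U_val hb, hW.U_comm S hb' hb (Gen.vl a' b'), hW.U_val hb', (hW.good b' hb').2,
    (hW.good b hb).2]
  congr 1
  have e1 : b' * b' * (a * b) = (b * b') * (a * b') := by ring
  have e2 : b * b * (a' * b') = (b * b') * (a' * b) := by ring
  rw [e1, e2, h]

omit hW in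
/-- membership in the ring of fractions -/
def InT (W : Set K[X]) (h : FractionRing K[X]) : Prop :=
  ∃ a b : K[X], b ∈ W ∧ h = algebraMap K[X] (FractionRing K[X]) a / algebraMap K[X] _ b

omit hW in
/-- units of the ring of fractions -/
def Un (W : Set K[X]) (h : FractionRing K[X]) : Prop :=
  ∃ a b : K[X], a ∈ W ∧ b ∈ W ∧
    h = algebraMap K[X] (FractionRing K[X]) a / algebraMap K[X] _ b

omit hW in
open Classical in
/-- the embedding of the ring of fractions -/
noncomputable def iota (K : Type) [Field K] [Module K A] (H : HS A) (x : A) (W : Set K[X])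
    (h : FractionRing K[X]) : A :=
  if hh : InT W h then vl K H x hh.choose hh.choose_spec.choose else 0


omit hW in
theorem α_ne {f : K[X]} (hf : f ≠ 0) : algebraMap K[X] (FractionRing K[X]) f ≠ 0 := by
  intro h
  apply hf
  exact (IsFractionRing.to_map_eq_zero_iff (K := FractionRing K[X])).1 h

theorem Adm.iota_eq (S : H.Scal K) (a b : K[X]) (hb : b ∈ W) :
    iota K H x W (algebraMap K[X] (FractionRing K[X]) a / algebraMap K[X] (FractionRing K[X]) b) = vl K H x a b := by
  have hh : InT W (algebraMap K[X] (FractionRing K[X]) a / algebraMap K[X] (FractionRing K[X]) b) := ⟨a, b, hb, rfl⟩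
  unfold iota
  rw [dif_pos hh]
  have h1 := hh.choose_spec.choose_spec
  apply hW.val_congr S h1.1 hb
  have h2 := h1.2
  have n1 := α_ne (hW.ne_zero hb)
  have n2 := α_ne (hW.ne_zero h1.1)
  rw [div_eq_div_iff n1 n2, ← map_mul, ← map_mul] at h2
  exact (IsFractionRing.injective K[X] (FractionRing K[X]) h2).symm

theorem Adm.inT_poly (a : K[X]) : InT W (algebraMap K[X] (FractionRing K[X]) a) := ⟨a, 1, hW.one, by rw [map_one, div_one]⟩

theorem Adm.inT_mul {h h' : FractionRing K[X]} (i : InT W h) (i' : InT W h') :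
    InT W (h * h') := by
  obtain ⟨a, b, hb, rfl⟩ := i
  obtain ⟨c, d, hd, rfl⟩ := i'
  refine ⟨a * c, b * d, hW.mul _ hb _ hd, ?_⟩
  rw [map_mul, map_mul]
  exact div_mul_div_comm _ _ _ _

theorem Adm.inT_add {h h' : FractionRing K[X]} (i : InT W h) (i' : InT W h') :
    InT W (h + h') := by
  obtain ⟨a, b, hb, rfl⟩ := i
  obtain ⟨c, d, hd, rfl⟩ := i'
  refine ⟨a * d + b * c, b * d, hW.mul _ hb _ hd, ?_⟩
  have n1 := α_ne (hW.ne_zero hb)
  have n2 := α_ne (hW.ne_zero hd)
  rw [div_add_div _ _ n1 n2, map_add, map_mul, map_mul, map_mul]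

theorem Adm.inT_neg {h : FractionRing K[X]} (i : InT W h) : InT W (-h) := by
  obtain ⟨a, b, hb, rfl⟩ := i
  refine ⟨-a, b, hb, ?_⟩
  rw [map_neg, neg_div]

theorem Adm.inT_sub {h h' : FractionRing K[X]} (i : InT W h) (i' : InT W h') :
    InT W (h - h') := by
  rw [sub_eq_add_neg]
  exact hW.inT_add i (hW.inT_neg i')

omit hW in
theorem Un.inT {h : FractionRing K[X]} (u : Un W h) : InT W h := by
  obtain ⟨a, b, _, hb, h⟩ := u
  exact ⟨a, b, hb, h⟩

theorem Adm.un_poly {a : K[X]} (ha : a ∈ W) : Un W (algebraMap K[X] (FractionRing K[X]) a) :=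
  ⟨a, 1, ha, hW.one, by rw [map_one, div_one]⟩

theorem Adm.un_mul {h h' : FractionRing K[X]} (i : Un W h) (i' : Un W h') : Un W (h * h') := by
  obtain ⟨a, b, ha, hb, rfl⟩ := i
  obtain ⟨c, d, hc, hd, rfl⟩ := i'
  refine ⟨a * c, b * d, hW.mul _ ha _ hc, hW.mul _ hb _ hd, ?_⟩
  rw [map_mul, map_mul]
  exact div_mul_div_comm _ _ _ _

omit hW in
theorem Un.inv {h : FractionRing K[X]} (i : Un W h) : Un W h⁻¹ := by
  obtain ⟨a, b, ha, hb, rfl⟩ := i
  exact ⟨b, a, hb, ha, by rw [inv_div]⟩

theorem Adm.un_const {c : K} (hc : c ≠ 0) : Un W (algebraMap K[X] (FractionRing K[X]) (C c)) := hW.un_poly (hW.const c hc)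

theorem Adm.un_neg {h : FractionRing K[X]} (i : Un W h) : Un W (-h) := by
  have h1 := hW.un_mul (hW.un_const (c := -1) (neg_ne_zero.mpr one_ne_zero)) i
  rw [C_neg, C_1, map_neg, map_one, neg_one_mul] at h1
  exact h1

theorem Adm.un_div {h h' : FractionRing K[X]} (i : Un W h) (i' : Un W h') : Un W (h / h') := by
  rw [div_eq_mul_inv]
  exact hW.un_mul i i'.inv

theorem Adm.un_ne {h : FractionRing K[X]} (i : Un W h) : h ≠ 0 := by
  obtain ⟨a, b, ha, hb, rfl⟩ := i
  exact div_ne_zero (α_ne (hW.ne_zero ha)) (α_ne (hW.ne_zero hb))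

theorem Adm.un_pow {h : FractionRing K[X]} (i : Un W h) (n : ℕ) : Un W (h ^ n) := by
  induction n with
  | zero =>
    rw [pow_zero]
    have := hW.un_poly hW.one
    rwa [map_one] at this
  | succ n ih =>
    rw [pow_succ]
    exact hW.un_mul ih i

theorem Adm.iota_poly (S : H.Scal K) (a : K[X]) : iota K H x W (algebraMap K[X] (FractionRing K[X]) a) = psi K H x a := by
  have h := hW.iota_eq S a 1 hW.one
  rw [map_one, div_one] at h
  rw [h]
  unfold vl
  rw [mul_one, psi_one, H.inv_one, H.U_one]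

theorem Adm.iota_add (S : H.Scal K) {h h' : FractionRing K[X]} (i : InT W h) (i' : InT W h') :
    iota K H x W (h + h') = iota K H x W h + iota K H x W h' := by
  obtain ⟨a, b, hb, rfl⟩ := i
  obtain ⟨c, d, hd, rfl⟩ := i'
  have hbd := hW.mul _ hb _ hd
  have n1 := α_ne (hW.ne_zero hb)
  have n2 := α_ne (hW.ne_zero hd)
  have e1 : algebraMap K[X] (FractionRing K[X]) a / algebraMap K[X] (FractionRing K[X]) b = algebraMap K[X] (FractionRing K[X]) (a * d) / algebraMap K[X] (FractionRing K[X]) (b * d) := by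
    rw [map_mul, map_mul, mul_div_mul_right _ _ n2]
  have e2 : algebraMap K[X] (FractionRing K[X]) c / algebraMap K[X] (FractionRing K[X]) d = algebraMap K[X] (FractionRing K[X]) (b * c) / algebraMap K[X] (FractionRing K[X]) (b * d) := by
    rw [map_mul, map_mul, mul_div_mul_left _ _ n1]
  have e3 : algebraMap K[X] (FractionRing K[X]) a / algebraMap K[X] (FractionRing K[X]) b + algebraMap K[X] (FractionRing K[X]) c / algebraMap K[X] (FractionRing K[X]) d = algebraMap K[X] (FractionRing K[X]) (a * d + b * c) / algebraMap K[X] (FractionRing K[X]) (b * d) := by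
    rw [e1, e2, ← add_div, map_add]
  rw [e3, hW.iota_eq S _ _ hbd, e1, hW.iota_eq S _ _ hbd, e2, hW.iota_eq S _ _ hbd]
  unfold vl
  rw [add_mul, map_add, map_add]

theorem Adm.iota_zero (S : H.Scal K) : iota K H x W 0 = 0 := by
  have := hW.iota_poly S 0
  rw [map_zero, map_zero] at this
  exact this

theorem Adm.iota_neg (S : H.Scal K) {h : FractionRing K[X]} (i : InT W h) :
    iota K H x W (-h) = -iota K H x W h := by
  have h1 := hW.iota_add S i (hW.inT_neg i)
  rw [add_neg_cancel, hW.iota_zero S] at h1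
  exact (neg_eq_of_add_eq_zero_right h1.symm).symm

theorem Adm.iota_sub (S : H.Scal K) {h h' : FractionRing K[X]} (i : InT W h) (i' : InT W h') :
    iota K H x W (h - h') = iota K H x W h - iota K H x W h' := by
  rw [sub_eq_add_neg, hW.iota_add S i (hW.inT_neg i'), hW.iota_neg S i', sub_eq_add_neg]

theorem Adm.iota_smul (S : H.Scal K) {h : FractionRing K[X]} (i : InT W h) (c : K) :
    iota K H x W (algebraMap K[X] (FractionRing K[X]) (C c) * h) = c • iota K H x W h := by
  obtain ⟨a, b, hb, rfl⟩ := i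
  rw [← mul_div_assoc, ← map_mul, hW.iota_eq S _ _ hb, hW.iota_eq S _ _ hb]
  unfold vl
  rw [mul_assoc, psi_C_mul, S.U_smul]

theorem Adm.gen_iota (S : H.Scal K) {h : FractionRing K[X]} (i : InT W h) :
    H.Gen K x (iota K H x W h) := by
  obtain ⟨a, b, hb, rfl⟩ := i
  rw [hW.iota_eq S _ _ hb]
  exact Gen.vl a b

/-- the law for units -/
theorem Adm.iota_U (S : H.Scal K) {u h : FractionRing K[X]} (iu : Un W u) (ih : InT W h) :
    H.U (iota K H x W u) (iota K H x W h) = iota K H x W (u * u * h) := by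
  obtain ⟨a, b, ha, hb, rfl⟩ := iu
  obtain ⟨c, d, hd, rfl⟩ := ih
  have hab := hW.mul _ ha _ hb
  have hbbd := hW.mul _ (hW.mul _ hb _ hb) _ hd
  have n1 := α_ne (hW.ne_zero hb)
  have n2 := α_ne (hW.ne_zero hd)
  have e1 : algebraMap K[X] (FractionRing K[X]) a / algebraMap K[X] (FractionRing K[X]) b * (algebraMap K[X] (FractionRing K[X]) a / algebraMap K[X] (FractionRing K[X]) b) * (algebraMap K[X] (FractionRing K[X]) c / algebraMap K[X] (FractionRing K[X]) d) = algebraMap K[X] (FractionRing K[X]) (a * a * c) / algebraMap K[X] (FractionRing K[X]) (b * b * d) := by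
    rw [div_mul_div_comm, div_mul_div_comm]
    simp only [map_mul]
  rw [e1, hW.iota_eq S _ _ hb, hW.iota_eq S _ _ hd, hW.iota_eq S _ _ hbbd]
  have h1 : H.U (vl K H x a b) (vl K H x c d) =
      H.U (H.inv (psi K H x b)) (H.U (psi K H x (a * b))
        (H.U (H.inv (psi K H x b)) (vl K H x c d))) := by
    conv_lhs => unfold vl
    rw [H.U_U]
    rfl
  have hG1 : H.Gen K x (H.U (H.inv (psi K H x b)) (vl K H x c d)) :=
    (Gen.psi b).inv.U (Gen.vl c d)
  have hG2 : H.Gen K x (H.U (vl K H x a b) (vl K H x c d)) := (Gen.vl a b).U (Gen.vl c d)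
  apply H.U_inj' (hW.good _ hbbd).1
  rw [hW.U_val hbbd, ← hW.U_mul S (hW.mul _ hb _ hb) hd hG2,
    ← hW.U_mul S hb hb ((Gen.psi d).U hG2), hW.U_comm S hb hd hG2, h1,
    H.U_inv_right _ _ (hW.good b hb).1, hW.U_comm S hb hd ((Gen.psi (a * b)).U hG1),
    hW.U_comm S hb hab hG1, H.U_inv_right _ _ (hW.good b hb).1, hW.U_comm S hd hab (Gen.vl c d),
    hW.U_val hd, (hW.good _ hab).2]
  congr 1
  ring

theorem Adm.iota_one (S : H.Scal K) : iota K H x W 1 = H.one := by
  have h := hW.iota_poly S 1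
  rwa [map_one, psi_one] at h

theorem Adm.iota_ne (S : H.Scal K) {u : FractionRing K[X]} (iu : Un W u) :
    iota K H x W u ≠ 0 := by
  intro h
  have h1 := hW.iota_U S iu (hW.un_mul iu.inv iu.inv).inT
  have hn := hW.un_ne iu
  have e : u * u * (u⁻¹ * u⁻¹) = 1 := by field_simp
  rw [h, U_zero', e, hW.iota_one S] at h1
  exact H.one_ne h1.symm

theorem Adm.iota_inv (S : H.Scal K) {u : FractionRing K[X]} (iu : Un W u) :
    H.inv (iota K H x W u) = iota K H x W u⁻¹ := by
  apply H.U_inj' (hW.iota_ne S iu)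
  have hn := hW.un_ne iu
  rw [H.U_self, hW.iota_U S iu iu.inv.inT]
  congr 1
  field_simp

end frac

end Pool.Agent.HuaTwo61
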