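import Mathlib
import Pool.Agent.HuaTwo61.Good

/-!
# Two points of a Hua system over any field: one more irreducible polynomial
-/

set_option autoImplicit false

open Polynomial

namespace Pool.Agent.HuaTwo61

open Pool.Agent.HuaTop84 Pool.Agent.HuaVal Pool.Agent.HuaOne84 Pool.Agent.HuaOne84.HS

variable {A : Type} [AddCommGroup A] {H : HS A}
variable {K : Type} [Field K] [Module K A]

/-- the sum formula without restriction on the sum -/
theorem sum' (H : HS A) (a b z : A) (ha : a ≠ 0) (hb : b ≠ 0) :
    H.U (a + b) z = H.U a (H.U (H.inv a + H.inv b) (H.U b z)) := by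
  by_cases hab : a + b = 0
  · have h1 : b = -a := (neg_eq_of_add_eq_zero_right hab).symm
    have h2 : H.inv a + H.inv b = 0 := by rw [h1, H.inv_neg, add_neg_cancel]
    rw [hab, h2, U_zero', U_zero', map_zero]
  · exact H.sum a b z ha hb hab

/-- the elements for which the law holds for `k q` -/
def Hh (H : HS A) (x : A) (W : Set K[X]) (q : K[X]) (k h : FractionRing K[X]) : Prop :=
  InT W h ∧ H.U (iota K H x W (k * algebraMap K[X] (FractionRing K[X]) q)) (iota K H x W h) =
    iota K H x W (k * algebraMap K[X] (FractionRing K[X]) q *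
      (k * algebraMap K[X] (FractionRing K[X]) q) * h)

/-- the elements `g` with `k⁻¹ g` in `Hh k` for all `k` -/
def MM (H : HS A) (x : A) (W : Set K[X]) (q : K[X]) (g : FractionRing K[X]) : Prop :=
  InT W g ∧ ∀ k, Un W k → Hh H x W q k (k⁻¹ * g)

section step

variable {x : A} {W : Set K[X]} (hW : Adm H x W) (S : H.Scal K) (q : K[X])


include hW S

theorem l1 {t k h : FractionRing K[X]} (ht : Un W t) (hk : Un W k) :
    Hh H x W q (t * t * k) h ↔ Hh H x W q k (t * t * h) := by
  have hn := hW.un_ne ht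
  have hkQ : InT W (k * (algebraMap K[X] (FractionRing K[X]) q)) := hW.inT_mul hk.inT (hW.inT_poly q)
  have e1 : t * t * k * (algebraMap K[X] (FractionRing K[X]) q) = t * t * (k * (algebraMap K[X] (FractionRing K[X]) q)) := by ring
  have key : ∀ h, InT W h → (H.U (iota K H x W (t * t * k * (algebraMap K[X] (FractionRing K[X]) q))) (iota K H x W h) =
      iota K H x W (t * t * k * (algebraMap K[X] (FractionRing K[X]) q) * (t * t * k * (algebraMap K[X] (FractionRing K[X]) q)) * h) ↔
      H.U (iota K H x W (k * (algebraMap K[X] (FractionRing K[X]) q))) (iota K H x W (t * t * h)) = iota K H x W (k * (algebraMap K[X] (FractionRing K[X]) q) * (k * (algebraMap K[X] (FractionRing K[X]) q)) * (t * t * h))) := by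
    intro h ih
    have ih2 : InT W (k * (algebraMap K[X] (FractionRing K[X]) q) * (k * (algebraMap K[X] (FractionRing K[X]) q)) * (t * t * h)) :=
      hW.inT_mul (hW.inT_mul hkQ hkQ) (hW.inT_mul (hW.inT_mul ht.inT ht.inT) ih)
    have e2 : t * t * k * (algebraMap K[X] (FractionRing K[X]) q) * (t * t * k * (algebraMap K[X] (FractionRing K[X]) q)) * h = t * t * (k * (algebraMap K[X] (FractionRing K[X]) q) * (k * (algebraMap K[X] (FractionRing K[X]) q)) * (t * t * h)) := by
      ring
    rw [e2, e1, ← hW.iota_U S ht hkQ, ← hW.iota_U S ht ih2, H.U_U, hW.iota_U S ht ih]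
    constructor
    · intro h
      exact H.U_inj' (hW.iota_ne S ht) h
    · intro h
      rw [h]
  constructor
  · rintro ⟨ih, h1⟩
    exact ⟨hW.inT_mul (hW.inT_mul ht.inT ht.inT) ih, (key h ih).1 h1⟩
  · rintro ⟨ih, h1⟩
    have ih' : InT W h := by
      have h2 := hW.inT_mul (hW.inT_mul ht.inv.inT ht.inv.inT) ih
      have e : t⁻¹ * t⁻¹ * (t * t * h) = h := by field_simp
      rwa [e] at h2
    exact ⟨ih', (key h ih').2 h1⟩

theorem l1n {k h : FractionRing K[X]} (hk : Un W k) :
    Hh H x W q (-k) h ↔ Hh H x W q k h := by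
  have hkQ : InT W (k * (algebraMap K[X] (FractionRing K[X]) q)) := hW.inT_mul hk.inT (hW.inT_poly q)
  unfold Hh
  have e1 : -k * (algebraMap K[X] (FractionRing K[X]) q) = -(k * (algebraMap K[X] (FractionRing K[X]) q)) := by ring
  have e2 : -k * (algebraMap K[X] (FractionRing K[X]) q) * (-k * (algebraMap K[X] (FractionRing K[X]) q)) * h = k * (algebraMap K[X] (FractionRing K[X]) q) * (k * (algebraMap K[X] (FractionRing K[X]) q)) * h := by ring
  rw [e2, e1, hW.iota_neg S hkQ, H.U_neg]

theorem l2 {e f k : FractionRing K[X]} (he : Un W e) (hf : Un W f) (hk : Un W k)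
    (h : e + f = k * (algebraMap K[X] (FractionRing K[X]) q)) : Hh H x W q k f⁻¹ := by
  refine ⟨hf.inv.inT, ?_⟩
  have hn := hW.un_ne hf
  have h1 : iota K H x W (k * (algebraMap K[X] (FractionRing K[X]) q)) = iota K H x W e + iota K H x W f := by rw [← h, hW.iota_add S he.inT hf.inT]
  have hne : iota K H x W (k * (algebraMap K[X] (FractionRing K[X]) q)) ≠ iota K H x W e := by
    rw [h1]
    intro h2
    exact hW.iota_ne S hf (by simpa using h2)
  have h2 := H.diff _ _ hne
  have h3 : iota K H x W (k * (algebraMap K[X] (FractionRing K[X]) q)) - iota K H x W e = iota K H x W f := by rw [h1]; abel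
  rw [h3, hW.iota_inv S hf, hW.iota_U S he hf.inv.inT, sub_eq_iff_eq_add] at h2
  rw [h2, h1, ← hW.iota_add S he.inT hf.inT, ← hW.iota_add S (hW.inT_add he.inT hf.inT) he.inT,
    ← hW.iota_add S (hW.inT_add (hW.inT_add he.inT hf.inT) he.inT)
      (hW.inT_mul (hW.inT_mul he.inT he.inT) hf.inv.inT), ← h]
  congr 1
  field_simp
  ring

theorem l3 {e f k h : FractionRing K[X]} (he : Un W e) (hf : Un W f) (hk : Un W k)
    (h0 : e + f = k * (algebraMap K[X] (FractionRing K[X]) q)) (ih : InT W h) :
    Hh H x W q k h ↔ Hh H x W q (k / (e * f)) (f * f * h) := by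
  have hn := hW.un_ne hf
  have hne := hW.un_ne he
  have h1 : iota K H x W (k * (algebraMap K[X] (FractionRing K[X]) q)) = iota K H x W e + iota K H x W f := by rw [← h0, hW.iota_add S he.inT hf.inT]
  have ih2 : InT W (f * f * h) := hW.inT_mul (hW.inT_mul hf.inT hf.inT) ih
  have hk' : Un W (k / (e * f)) := hW.un_div hk (hW.un_mul he hf)
  have hkQ : InT W (k / (e * f) * (algebraMap K[X] (FractionRing K[X]) q)) := hW.inT_mul hk'.inT (hW.inT_poly q)
  have h2 : H.inv (iota K H x W e) + H.inv (iota K H x W f) = iota K H x W (k / (e * f) * (algebraMap K[X] (FractionRing K[X]) q)) := by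
    rw [hW.iota_inv S he, hW.iota_inv S hf, ← hW.iota_add S he.inv.inT hf.inv.inT]
    congr 1
    rw [div_mul_eq_mul_div, ← h0]
    field_simp
    ring
  have h3 : H.U (iota K H x W (k * (algebraMap K[X] (FractionRing K[X]) q))) (iota K H x W h) = H.U (iota K H x W e) (H.U (iota K H x W (k / (e * f) * (algebraMap K[X] (FractionRing K[X]) q))) (iota K H x W (f * f * h))) := by
    rw [h1, sum' H _ _ _ (hW.iota_ne S he) (hW.iota_ne S hf), h2, hW.iota_U S hf ih]
  have ih3 : InT W (k / (e * f) * (algebraMap K[X] (FractionRing K[X]) q) * (k / (e * f) * (algebraMap K[X] (FractionRing K[X]) q)) * (f * f * h)) :=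
    hW.inT_mul (hW.inT_mul hkQ hkQ) ih2
  have h4 : iota K H x W (k * (algebraMap K[X] (FractionRing K[X]) q) * (k * (algebraMap K[X] (FractionRing K[X]) q)) * h) =
      H.U (iota K H x W e) (iota K H x W (k / (e * f) * (algebraMap K[X] (FractionRing K[X]) q) * (k / (e * f) * (algebraMap K[X] (FractionRing K[X]) q)) * (f * f * h))) := by
    rw [hW.iota_U S he ih3]
    congr 1
    field_simp
  unfold Hh
  constructor
  · rintro ⟨_, h5⟩
    rw [h3, h4] at h5
    exact ⟨ih2, H.U_inj' (hW.iota_ne S he) h5⟩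
  · rintro ⟨_, h5⟩
    refine ⟨ih, ?_⟩
    rw [h3, h4, h5]

theorem l4 {k v : FractionRing K[X]} (hk : Un W k) (hv : Un W v) (hu : Un W (1 - (algebraMap K[X] (FractionRing K[X]) q) * v)) :
    Hh H x W q k (v / k) ∧ ∀ h, Hh H x W q k h ↔ Hh H x W q (k / (1 - (algebraMap K[X] (FractionRing K[X]) q) * v)) h := by
  set u := 1 - (algebraMap K[X] (FractionRing K[X]) q) * v with hudef
  have nk := hW.un_ne hk
  have nv := hW.un_ne hv
  have nu := hW.un_ne hu
  have hf : Un W (k / v) := hW.un_div hk hv
  have he : Un W (-(u * (k / v))) := hW.un_neg (hW.un_mul hu hf)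
  have hef : -(u * (k / v)) + k / v = k * (algebraMap K[X] (FractionRing K[X]) q) := by
    rw [hudef]
    field_simp
    ring
  constructor
  · have h1 := l2 hW S q he hf hk hef
    rwa [inv_div] at h1
  · intro h
    have hku : Un W (k / u) := hW.un_div hk hu
    have main : ∀ h, InT W h → (Hh H x W q k h ↔ Hh H x W q (k / u) h) := by
      intro h ih
      rw [l3 hW S q he hf hk hef ih]
      have e1 : k / (-(u * (k / v)) * (k / v)) = -((k / v)⁻¹ * (k / v)⁻¹ * (k / u)) := by
        field_simp
      rw [e1, l1n hW S q (hW.un_mul (hW.un_mul hf.inv hf.inv) hku), l1 hW S q hf.inv hku]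
      have e2 : (k / v)⁻¹ * (k / v)⁻¹ * (k / v * (k / v) * h) = h := by field_simp
      rw [e2]
    exact ⟨fun h1 => (main h h1.1).1 h1, fun h1 => (main h h1.1).2 h1⟩

theorem m_v {v : FractionRing K[X]} (hv : Un W v) (hu : Un W (1 - (algebraMap K[X] (FractionRing K[X]) q) * v)) : MM H x W q v := by
  refine ⟨hv.inT, fun k hk => ?_⟩
  have h := (l4 hW S q hk hv hu).1
  rwa [div_eq_inv_mul] at h

theorem m_u {v g : FractionRing K[X]} (hv : Un W v) (hu : Un W (1 - (algebraMap K[X] (FractionRing K[X]) q) * v))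
    (hg : MM H x W q g) : MM H x W q ((1 - (algebraMap K[X] (FractionRing K[X]) q) * v) * g) := by
  refine ⟨hW.inT_mul hu.inT hg.1, fun k hk => ?_⟩
  rw [(l4 hW S q hk hv hu).2]
  have nk := hW.un_ne hk
  have nu := hW.un_ne hu
  have h := hg.2 (k / (1 - (algebraMap K[X] (FractionRing K[X]) q) * v)) (hW.un_div hk hu)
  have e : k⁻¹ * ((1 - (algebraMap K[X] (FractionRing K[X]) q) * v) * g) = (k / (1 - (algebraMap K[X] (FractionRing K[X]) q) * v))⁻¹ * g := by
    rw [inv_div]
    ring
  rw [e]
  exact h

theorem m_add {g g' : FractionRing K[X]} (hg : MM H x W q g) (hg' : MM H x W q g') :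
    MM H x W q (g + g') := by
  refine ⟨hW.inT_add hg.1 hg'.1, fun k hk => ?_⟩
  obtain ⟨i1, h1⟩ := hg.2 k hk
  obtain ⟨i2, h2⟩ := hg'.2 k hk
  have hkQ : InT W (k * (algebraMap K[X] (FractionRing K[X]) q)) := hW.inT_mul hk.inT (hW.inT_poly q)
  have j1 := hW.inT_mul (hW.inT_mul hkQ hkQ) i1
  have j2 := hW.inT_mul (hW.inT_mul hkQ hkQ) i2
  rw [mul_add]
  refine ⟨hW.inT_add i1 i2, ?_⟩
  rw [hW.iota_add S i1 i2, map_add, h1, h2, mul_add, hW.iota_add S j1 j2]

theorem m_smul {g : FractionRing K[X]} (hg : MM H x W q g) (c : K) :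
    MM H x W q (algebraMap K[X] (FractionRing K[X]) (C c) * g) := by
  refine ⟨hW.inT_mul (hW.inT_poly _) hg.1, fun k hk => ?_⟩
  obtain ⟨i1, h1⟩ := hg.2 k hk
  have hkQ : InT W (k * (algebraMap K[X] (FractionRing K[X]) q)) := hW.inT_mul hk.inT (hW.inT_poly q)
  have j1 := hW.inT_mul (hW.inT_mul hkQ hkQ) i1
  have e1 : k⁻¹ * (algebraMap K[X] (FractionRing K[X]) (C c) * g) = algebraMap K[X] (FractionRing K[X]) (C c) * (k⁻¹ * g) := by ring
  have e2 : k * (algebraMap K[X] (FractionRing K[X]) q) * (k * (algebraMap K[X] (FractionRing K[X]) q)) * (algebraMap K[X] (FractionRing K[X]) (C c) * (k⁻¹ * g)) = algebraMap K[X] (FractionRing K[X]) (C c) * (k * (algebraMap K[X] (FractionRing K[X]) q) * (k * (algebraMap K[X] (FractionRing K[X]) q)) * (k⁻¹ * g)) := by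
    ring
  rw [e1]
  refine ⟨hW.inT_mul (hW.inT_poly _) i1, ?_⟩
  rw [hW.iota_smul S i1, S.U_smul, h1, e2, hW.iota_smul S j1]

theorem m_sub {g g' : FractionRing K[X]} (hg : MM H x W q g) (hg' : MM H x W q g') :
    MM H x W q (g - g') := by
  have h := m_add hW S q hg (m_smul hW S q hg' (-1))
  rw [C_neg, C_1, map_neg, map_one, neg_one_mul, ← sub_eq_add_neg] at h
  exact h

theorem m_zero {g : FractionRing K[X]} (hg : MM H x W q g) : MM H x W q 0 := by
  have h := m_sub hW S q hg hg
  rwa [sub_self] at h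

theorem m_Q {v g : FractionRing K[X]} (hv : Un W v) (hu : Un W (1 - (algebraMap K[X] (FractionRing K[X]) q) * v))
    (hg : MM H x W q g) : MM H x W q ((algebraMap K[X] (FractionRing K[X]) q) * (v * g)) := by
  have h := m_sub hW S q hg (m_u hW S q hv hu hg)
  have e : g - (1 - (algebraMap K[X] (FractionRing K[X]) q) * v) * g = (algebraMap K[X] (FractionRing K[X]) q) * (v * g) := by ring
  rwa [e] at h

/-- elementary elements are scalar multiples of powers of `1 / X` -/
theorem elem {n : ℕ} (hn : ∀ f : K[X], f ≠ 0 → f.natDegree < n → f ∈ W) (hqm : q.Monic)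
    (hqi : Irreducible q) (hqn : q.natDegree = n) (hqW : q ∉ W) (k : ℕ) (hk : k ≤ n) :
    ∃ b : K, b ≠ 0 ∧ Un W (algebraMap K[X] (FractionRing K[X]) (C b) * ((algebraMap K[X] (FractionRing K[X]) X) ^ k)⁻¹) ∧
      Un W (1 - (algebraMap K[X] (FractionRing K[X]) q) * (algebraMap K[X] (FractionRing K[X]) (C b) * ((algebraMap K[X] (FractionRing K[X]) X) ^ k)⁻¹)) := by
  have hX : Un W (algebraMap K[X] (FractionRing K[X]) X) := hW.un_poly hW.hX
  have hXn : (algebraMap K[X] (FractionRing K[X]) X : FractionRing K[X]) ≠ 0 := hW.un_ne hX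
  have hn1 : 1 ≤ n := by
    by_contra h
    have h0 : n = 0 := by omega
    rw [h0] at hqn
    rw [eq_C_of_natDegree_eq_zero hqn] at hqi
    have hc : q.coeff 0 ≠ 0 := by
      intro h
      rw [h, C_0] at hqi
      exact not_irreducible_zero hqi
    exact hqi.not_isUnit (isUnit_C.2 (isUnit_iff_ne_zero.2 hc))
  -- the reduction to the numerator
  have main : ∀ b : K, b ≠ 0 → (X ^ k - C b * q) ∈ W →
      ∃ b : K, b ≠ 0 ∧ Un W (algebraMap K[X] (FractionRing K[X]) (C b) * ((algebraMap K[X] (FractionRing K[X]) X) ^ k)⁻¹) ∧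
        Un W (1 - (algebraMap K[X] (FractionRing K[X]) q) * (algebraMap K[X] (FractionRing K[X]) (C b) * ((algebraMap K[X] (FractionRing K[X]) X) ^ k)⁻¹)) := by
    intro b hb hw
    refine ⟨b, hb, hW.un_mul (hW.un_const hb) (hW.un_pow hX k).inv, ?_⟩
    have h1 := hW.un_mul (hW.un_poly hw) (hW.un_pow hX k).inv
    have e : algebraMap K[X] (FractionRing K[X]) (X ^ k - C b * q) * ((algebraMap K[X] (FractionRing K[X]) X) ^ k)⁻¹ = 1 - (algebraMap K[X] (FractionRing K[X]) q) * (algebraMap K[X] (FractionRing K[X]) (C b) * ((algebraMap K[X] (FractionRing K[X]) X) ^ k)⁻¹) := by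
      rw [map_sub, map_mul, map_pow, sub_mul, mul_inv_cancel₀ (pow_ne_zero k hXn)]
      ring
    rwa [e] at h1
  -- numerators with a root
  have root : ∀ (b r : K), b ≠ 0 → (k < n) → (X - C r ∈ W) → (X ^ k - C b * q).eval r = 0 →
      (X ^ k - C b * q) ∈ W := by
    intro b r hb hkn hr he
    obtain ⟨m, hm⟩ := dvd_iff_isRoot.2 he
    have hdeg : (X ^ k - C b * q).natDegree = n := by
      rw [← neg_sub, natDegree_neg, natDegree_sub_eq_left_of_natDegree_lt]
      · rw [natDegree_C_mul hb, hqn]
      · rw [natDegree_C_mul hb, hqn, natDegree_X_pow]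
        exact hkn
    have hne : X ^ k - C b * q ≠ 0 := by
      intro h
      rw [h, natDegree_zero] at hdeg
      omega
    have hm0 : m ≠ 0 := by
      rintro rfl
      rw [mul_zero] at hm
      exact hne hm
    have hmd : m.natDegree < n := by
      have h1 := congrArg natDegree hm
      rw [hdeg, natDegree_mul (X_sub_C_ne_zero r) hm0, natDegree_X_sub_C] at h1
      omega
    rw [hm]
    exact hW.mul _ hr _ (hn m hm0 hmd)
  have hroot : ∀ r : K, 2 ≤ n → q.eval r ≠ 0 := by
    intro r h2 h
    obtain ⟨m, hm⟩ := dvd_iff_isRoot.2 h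
    have h1 := hqi.isUnit_or_isUnit hm
    rcases h1 with h1 | h1
    · have := natDegree_eq_zero_of_isUnit h1
      rw [natDegree_X_sub_C] at this
      omega
    · have h3 := natDegree_eq_zero_of_isUnit h1
      have hm0 : m ≠ 0 := by
        rintro rfl
        exact not_isUnit_zero h1
      have h4 := congrArg natDegree hm
      rw [hqn, natDegree_mul (X_sub_C_ne_zero r) hm0, natDegree_X_sub_C, h3] at h4
      omega
  have hq0 : q.eval 0 ≠ 0 := by
    by_cases h2 : 2 ≤ n
    · exact hroot 0 h2
    · intro h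
      have hn' : n = 1 := by omega
      obtain ⟨m, hm⟩ := dvd_iff_isRoot.2 h
      rw [C_0, sub_zero] at hm
      have hm0 : m ≠ 0 := by
        rintro rfl
        rw [mul_zero] at hm
        exact hqi.ne_zero hm
      have h4 := congrArg natDegree hm
      rw [hqn, natDegree_mul X_ne_zero hm0, natDegree_X] at h4
      apply hqW
      rw [hm]
      exact hW.mul _ hW.hX _ (hn m hm0 (by omega))
  by_cases hk0 : k = 0
  · subst hk0
    have hb : (q.eval 0)⁻¹ ≠ 0 := inv_ne_zero hq0
    refine main _ hb (root _ 0 hb (by omega) ?_ ?_)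
    · rw [C_0, sub_zero]
      exact hW.hX
    · rw [pow_zero, eval_sub, eval_one, eval_mul, eval_C, inv_mul_cancel₀ hq0, sub_self]
  by_cases hkn : k = n
  · refine main 1 one_ne_zero ?_
    rw [C_1, one_mul]
    have hlt : (X ^ k - q).natDegree < n := by
      by_cases h0 : X ^ k - q = 0
      · rw [h0, natDegree_zero]
        omega
      · have hd : (X ^ k - q).degree < (X ^ k : K[X]).degree := by
          apply degree_sub_lt_left
          · rw [degree_X_pow, degree_eq_natDegree hqi.ne_zero, hqn, hkn]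
          · exact pow_ne_zero _ X_ne_zero
          · rw [leadingCoeff_X_pow, hqm.leadingCoeff]
        rw [degree_X_pow, degree_eq_natDegree h0, hkn] at hd
        have := Nat.cast_lt.1 hd
        rw [hkn]
        exact this
    refine hn _ ?_ hlt
    intro h0
    have h1 : q = X ^ k := (sub_eq_zero.1 h0).symm
    apply hqW
    rw [h1]
    have hp : ∀ m : ℕ, (X ^ m : K[X]) ∈ W := by
      intro m
      induction m with
      | zero => rw [pow_zero]; exact hW.one
      | succ m ih => rw [pow_succ]; exact hW.mul _ ih _ hW.hX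
    exact hp k
  · have h2 : 2 ≤ n := by omega
    have hq1 := hroot 1 h2
    have hb : (q.eval 1)⁻¹ ≠ 0 := inv_ne_zero hq1
    refine main _ hb (root _ 1 hb (by omega) ?_ ?_)
    · refine hn _ (X_sub_C_ne_zero 1) ?_
      rw [natDegree_X_sub_C]
      omega
    · rw [eval_sub, eval_pow, eval_X, one_pow, eval_mul, eval_C, inv_mul_cancel₀ hq1, sub_self]

/-- the key step -/
theorem step {n : ℕ} (hn : ∀ f : K[X], f ≠ 0 → f.natDegree < n → f ∈ W) (hqm : q.Monic)
    (hqi : Irreducible q) (hqn : q.natDegree = n) (hqW : q ∉ W) :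
    ∀ w ∈ W, ∀ g : K[X], H.U (psi K H x (w * q)) (psi K H x g)
      = psi K H x (w * q * (w * q) * g) := by
  have hX : Un W (algebraMap K[X] (FractionRing K[X]) X) := hW.un_poly hW.hX
  have hXn : (algebraMap K[X] (FractionRing K[X]) X : FractionRing K[X]) ≠ 0 := hW.un_ne hX
  have hel := fun k hk => elem hW S q hn hqm hqi hqn hqW k hk
  have hsc : ∀ (b : K) (g : FractionRing K[X]), b ≠ 0 → MM H x W q (algebraMap K[X] (FractionRing K[X]) (C b) * g) →
      MM H x W q g := by
    intro b g hb h
    have h1 := m_smul hW S q h b⁻¹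
    rw [← mul_assoc, ← map_mul, ← C_mul, inv_mul_cancel₀ hb, C_1, map_one, one_mul] at h1
    exact h1
  have hneg : ∀ k ≤ n, MM H x W q ((algebraMap K[X] (FractionRing K[X]) X) ^ k)⁻¹ := by
    intro k hk
    obtain ⟨b, hb, h1, h2⟩ := hel k hk
    exact hsc b _ hb (m_v hW S q h1 h2)
  have hQk : ∀ k ≤ n, ∀ g, MM H x W q g → MM H x W q ((algebraMap K[X] (FractionRing K[X]) q) * (((algebraMap K[X] (FractionRing K[X]) X) ^ k)⁻¹ * g)) := by
    intro k hk g hg
    obtain ⟨b, hb, h1, h2⟩ := hel k hk
    have h3 := m_Q hW S q h1 h2 hg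
    apply hsc b _ hb
    have e : algebraMap K[X] (FractionRing K[X]) (C b) * ((algebraMap K[X] (FractionRing K[X]) q) * (((algebraMap K[X] (FractionRing K[X]) X) ^ k)⁻¹ * g)) = (algebraMap K[X] (FractionRing K[X]) q) * (algebraMap K[X] (FractionRing K[X]) (C b) * ((algebraMap K[X] (FractionRing K[X]) X) ^ k)⁻¹ * g) := by ring
    rw [e]
    exact h3
  have h1M : MM H x W q 1 := by
    have h := hneg 0 (by omega)
    rwa [pow_zero, _root_.inv_one] at h
  have h0M : MM H x W q 0 := m_zero hW S q h1M
  have hQ : ∀ g, MM H x W q g → MM H x W q ((algebraMap K[X] (FractionRing K[X]) q) * g) := by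
    intro g hg
    have h := hQk 0 (by omega) g hg
    rwa [pow_zero, _root_.inv_one, one_mul] at h
  have hsum : ∀ (s : Finset ℕ) (F : ℕ → FractionRing K[X]), (∀ i ∈ s, MM H x W q (F i)) →
      MM H x W q (∑ i ∈ s, F i) := by
    intro s F hF
    induction s using Finset.induction_on with
    | empty => rw [Finset.sum_empty]; exact h0M
    | insert a s ha ih =>
      rw [Finset.sum_insert ha]
      exact m_add hW S q (hF a (Finset.mem_insert_self a s))
        (ih fun i hi => hF i (Finset.mem_insert_of_mem hi))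
  have hpow : ∀ j ≤ n, MM H x W q ((algebraMap K[X] (FractionRing K[X]) X) ^ j) := by
    intro j
    induction j using Nat.strong_induction_on with
    | _ j ih =>
      intro hj
      have hk : n - j ≤ n := Nat.sub_le n j
      have h1 := hQk (n - j) hk 1 h1M
      rw [mul_one] at h1
      have e1 : (algebraMap K[X] (FractionRing K[X]) q) = ∑ i ∈ Finset.range (n + 1), algebraMap K[X] (FractionRing K[X]) (C (q.coeff i)) * (algebraMap K[X] (FractionRing K[X]) X) ^ i := by
        conv_lhs => rw [q.as_sum_range_C_mul_X_pow, hqn]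
        rw [map_sum]
        refine Finset.sum_congr rfl fun i _ => ?_
        rw [map_mul, map_pow]
      have hcn : q.coeff n = 1 := by
        have := hqm.coeff_natDegree
        rwa [hqn] at this
      have e2 : (algebraMap K[X] (FractionRing K[X]) q) * ((algebraMap K[X] (FractionRing K[X]) X) ^ (n - j))⁻¹ = (∑ i ∈ Finset.range n, algebraMap K[X] (FractionRing K[X]) (C (q.coeff i)) *
          ((algebraMap K[X] (FractionRing K[X]) X) ^ i * ((algebraMap K[X] (FractionRing K[X]) X) ^ (n - j))⁻¹)) + (algebraMap K[X] (FractionRing K[X]) X) ^ j := by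
        rw [e1, Finset.sum_range_succ, add_mul, Finset.sum_mul, hcn, C_1, map_one, one_mul]
        congr 1
        · refine Finset.sum_congr rfl fun i _ => ?_
          ring
        · rw [mul_inv_eq_iff_eq_mul₀ (pow_ne_zero _ hXn), ← pow_add]
          congr 1
          omega
      have h2 : MM H x W q (∑ i ∈ Finset.range n, algebraMap K[X] (FractionRing K[X]) (C (q.coeff i)) *
          ((algebraMap K[X] (FractionRing K[X]) X) ^ i * ((algebraMap K[X] (FractionRing K[X]) X) ^ (n - j))⁻¹)) := by
        apply hsum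
        intro i hi
        apply m_smul hW S q
        have hi' := Finset.mem_range.1 hi
        by_cases hik : n - j ≤ i
        · have e3 : (algebraMap K[X] (FractionRing K[X]) X) ^ i * ((algebraMap K[X] (FractionRing K[X]) X) ^ (n - j))⁻¹ = (algebraMap K[X] (FractionRing K[X]) X) ^ (i - (n - j)) := by
            rw [mul_inv_eq_iff_eq_mul₀ (pow_ne_zero _ hXn), ← pow_add]
            congr 1
            omega
          rw [e3]
          exact ih _ (by omega) (by omega)
        · have e3 : (algebraMap K[X] (FractionRing K[X]) X) ^ i * ((algebraMap K[X] (FractionRing K[X]) X) ^ (n - j))⁻¹ = ((algebraMap K[X] (FractionRing K[X]) X) ^ (n - j - i))⁻¹ := by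
            rw [mul_inv_eq_iff_eq_mul₀ (pow_ne_zero _ hXn), eq_comm, inv_mul_eq_iff_eq_mul₀
              (pow_ne_zero _ hXn), ← pow_add]
            congr 1
            omega
          rw [e3]
          exact hneg _ (by omega)
      have h3 := m_sub hW S q h1 h2
      rw [e2, add_sub_cancel_left] at h3
      exact h3
  have hlow : ∀ f : K[X], f.natDegree < n → MM H x W q (algebraMap K[X] (FractionRing K[X]) f) := by
    intro f hf
    have e : algebraMap K[X] (FractionRing K[X]) f = ∑ i ∈ Finset.range n, algebraMap K[X] (FractionRing K[X]) (C (f.coeff i)) * (algebraMap K[X] (FractionRing K[X]) X) ^ i := by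
      conv_lhs => rw [f.as_sum_range_C_mul_X_pow' hf]
      rw [map_sum]
      refine Finset.sum_congr rfl fun i _ => ?_
      rw [map_mul, map_pow]
    rw [e]
    apply hsum
    intro i hi
    exact m_smul hW S q (hpow i (Finset.mem_range.1 hi).le) _
  have hn1 : 1 ≤ n := by
    by_contra h
    have h0 : n = 0 := by omega
    rw [h0] at hqn
    rw [eq_C_of_natDegree_eq_zero hqn] at hqi
    have hc : q.coeff 0 ≠ 0 := by
      intro h
      rw [h, C_0] at hqi
      exact not_irreducible_zero hqi
    exact hqi.not_isUnit (isUnit_C.2 (isUnit_iff_ne_zero.2 hc))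
  have hall : ∀ (d : ℕ) (f : K[X]), f.natDegree < d → MM H x W q (algebraMap K[X] (FractionRing K[X]) f) := by
    intro d
    induction d with
    | zero => intro f hf; omega
    | succ d ih =>
      intro f hf
      by_cases h : f.natDegree < n
      · exact hlow f h
      · have h1 : (f /ₘ q).natDegree < d := by
          rw [natDegree_divByMonic f hqm]
          omega
        have h2 : (f %ₘ q).natDegree < n := by
          rw [← hqn]
          apply natDegree_modByMonic_lt f hqm
          intro h1'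
          rw [h1', natDegree_one] at hqn
          omega
        have e : f = q * (f /ₘ q) + f %ₘ q := by
          have := modByMonic_add_div f q
          rw [add_comm] at this
          exact this.symm
        rw [e, map_add, map_mul]
        exact m_add hW S q (hQ _ (ih _ h1)) (hlow _ h2)
  intro w hw g
  have h1 := (hall _ (w * g) (Nat.lt_succ_self _)).2 (algebraMap K[X] (FractionRing K[X]) w) (hW.un_poly hw)
  have hwn : algebraMap K[X] (FractionRing K[X]) w ≠ 0 := hW.un_ne (hW.un_poly hw)
  have e1 : (algebraMap K[X] (FractionRing K[X]) w)⁻¹ * algebraMap K[X] (FractionRing K[X]) (w * g) = algebraMap K[X] (FractionRing K[X]) g := by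
    rw [map_mul, ← mul_assoc, inv_mul_cancel₀ hwn, one_mul]
  rw [e1] at h1
  have h2 := h1.2
  have e2 : algebraMap K[X] (FractionRing K[X]) w * (algebraMap K[X] (FractionRing K[X]) q) = algebraMap K[X] (FractionRing K[X]) (w * q) := (map_mul _ _ _).symm
  rw [e2, ← map_mul, ← map_mul, hW.iota_poly S, hW.iota_poly S, hW.iota_poly S] at h2
  exact h2

end step

end Pool.Agent.HuaTwo61
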