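import Mathlib
import Pool.Agent.HuaTwo61.Step

/-!
# Two points of a Hua system over any field: the field
-/

set_option autoImplicit false

open Polynomial

namespace Pool.Agent.HuaTwo61

open Pool.Agent.HuaTop84 Pool.Agent.HuaVal Pool.Agent.HuaOne84 Pool.Agent.HuaOne84.HS

variable {A : Type} [AddCommGroup A] {H : HS A}
variable {K : Type} [Field K] [Module K A]

/-- one more irreducible polynomial -/
theorem Adm.extend {x : A} {W : Set K[X]} (hW : Adm H x W) {q : K[X]}
    (hs : ∀ w ∈ W, ∀ g : K[X], H.U (psi K H x (w * q)) (psi K H x g)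
      = psi K H x (w * q * (w * q) * g)) (hq0 : psi K H x q ≠ 0) :
    ∃ W' : Set K[X], W ⊆ W' ∧ q ∈ W' ∧ Adm H x W' := by
  have hgq : Good K H x q := by
    refine ⟨hq0, fun g => ?_⟩
    have := hs 1 hW.one g
    rwa [one_mul] at this
  have hg1 : ∀ w ∈ W, Good K H x (w * q) := by
    intro w hw
    refine ⟨?_, hs w hw⟩
    intro h
    have h1 := hs w hw 1
    have e : w * q * (w * q) * 1 = w * w * (q * q * 1) := by ring
    rw [h, U_zero', e, ← (hW.good w hw).2, ← hgq.2, psi_one] at h1
    exact H.one_ne (H.U_inj hq0 (H.U_inj (hW.good w hw).1 h1.symm))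
  have hgm : ∀ m : ℕ, ∀ w ∈ W, Good K H x (w * q ^ m) := by
    intro m
    induction m using Nat.strong_induction_on with
    | _ m ih =>
      intro w hw
      rcases m with _ | _ | m
      · rw [pow_zero, mul_one]
        exact hW.good w hw
      · rw [zero_add, pow_one]
        exact hg1 w hw
      · have h := hgq.sq (ih m (by omega) w hw)
        have e : w * q ^ (m + 1 + 1) = q * q * (w * q ^ m) := by ring
        rw [e]
        exact h
  refine ⟨{f | ∃ w ∈ W, ∃ m : ℕ, f = w * q ^ m}, ?_, ?_, ?_, ?_, ?_, ?_⟩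
  · intro w hw
    exact ⟨w, hw, 0, by rw [pow_zero, mul_one]⟩
  · exact ⟨1, hW.one, 1, by rw [pow_one, one_mul]⟩
  · rintro _ ⟨w, hw, m, rfl⟩
    exact hgm m w hw
  · rintro _ ⟨w, hw, m, rfl⟩ _ ⟨w', hw', m', rfl⟩
    exact ⟨w * w', hW.mul _ hw _ hw', m + m', by ring⟩
  · intro c hc
    exact ⟨C c, hW.const c hc, 0, by rw [pow_zero, mul_one]⟩
  · exact ⟨X, hW.hX, 0, by rw [pow_zero, mul_one]⟩

/-- a maximal admissible set -/
theorem exists_max (S : H.Scal K) {x : A} (hx : ∀ s : K, x - s • H.one ≠ 0) :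
    ∃ W : Set K[X], Adm H x W ∧ ∀ W' : Set K[X], Adm H x W' → W ⊆ W' → W' ⊆ W := by
  let W₀ : Set K[X] := {f | ∃ c : K, c ≠ 0 ∧ ∃ m : ℕ, f = C c * X ^ m}
  have h0 : Adm H x W₀ := by
    refine ⟨?_, ?_, ?_, ?_⟩
    · rintro _ ⟨c, hc, m, rfl⟩
      exact (Good.varX_pow S hx m).const_mul S hc
    · rintro _ ⟨c, hc, m, rfl⟩ _ ⟨c', hc', m', rfl⟩
      refine ⟨c * c', mul_ne_zero hc hc', m + m', ?_⟩
      rw [C_mul, pow_add]
      ring
    · intro c hc
      exact ⟨c, hc, 0, by rw [pow_zero, mul_one]⟩
    · exact ⟨1, one_ne_zero, 1, by rw [C_1, one_mul, pow_one]⟩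
  obtain ⟨W, _, hW⟩ := zorn_subset_nonempty {W : Set K[X] | Adm H x W} (by
    intro c hc hch hne
    refine ⟨⋃₀ c, ?_, fun s hs => Set.subset_sUnion_of_mem hs⟩
    obtain ⟨W₁, hW₁⟩ := hne
    refine ⟨?_, ?_, ?_, ?_⟩
    · rintro w ⟨V, hV, hw⟩
      exact (hc hV).good w hw
    · rintro a ⟨V, hV, ha⟩ b ⟨V', hV', hb⟩
      rcases hch.total hV hV' with h | h
      · exact ⟨V', hV', (hc hV').mul _ (h ha) _ hb⟩
      · exact ⟨V, hV, (hc hV).mul _ ha _ (h hb)⟩
    · intro d hd
      exact ⟨W₁, hW₁, (hc hW₁).const d hd⟩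
    · exact ⟨W₁, hW₁, (hc hW₁).hX⟩) W₀ h0
  exact ⟨W, hW.1, fun W' h1 h2 => hW.2 h1 h2⟩

/-- the first irreducible polynomial outside of an admissible set -/
theorem Adm.first {x : A} {W : Set K[X]} (hW : Adm H x W) (hall : ¬ ∀ f : K[X], f ≠ 0 → f ∈ W) :
    ∃ (q : K[X]), q.Monic ∧ Irreducible q ∧ q ∉ W ∧
      ∀ f : K[X], f ≠ 0 → f.natDegree < q.natDegree → f ∈ W := by
  classical
  -- a polynomial of minimal degree outside of `W`
  push Not at hall
  have hex : ∃ n : ℕ, ∃ f : K[X], f ≠ 0 ∧ f ∉ W ∧ f.natDegree = n := by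
    obtain ⟨f, hf, hfW⟩ := hall
    exact ⟨_, f, hf, hfW, rfl⟩
  obtain ⟨f, hf, hfW, hfn⟩ := Nat.find_spec hex
  have hmin : ∀ g : K[X], g ≠ 0 → g.natDegree < f.natDegree → g ∈ W := by
    intro g hg hd
    by_contra hgW
    rw [hfn] at hd
    exact Nat.find_min hex hd ⟨g, hg, hgW, rfl⟩
  have hlc : f.leadingCoeff ≠ 0 := leadingCoeff_ne_zero.2 hf
  set q : K[X] := C f.leadingCoeff⁻¹ * f with hq
  have hfq : f = C f.leadingCoeff * q := by
    rw [hq, ← mul_assoc, ← C_mul, mul_inv_cancel₀ hlc, C_1, one_mul]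
  have hdq : q.natDegree = f.natDegree := natDegree_C_mul (inv_ne_zero hlc)
  have hqm : q.Monic := by
    rw [Monic, hq, leadingCoeff_mul, leadingCoeff_C, inv_mul_cancel₀ hlc]
  have hqW : q ∉ W := by
    intro h
    apply hfW
    rw [hfq]
    exact hW.mul _ (hW.const _ hlc) _ h
  have hmin' : ∀ g : K[X], g ≠ 0 → g.natDegree < q.natDegree → g ∈ W := by
    intro g hg hd
    rw [hdq] at hd
    exact hmin g hg hd
  refine ⟨q, hqm, ?_, hqW, hmin'⟩
  have hnu : ¬ IsUnit q := by
    intro h
    have h1 := (hqm.isUnit_iff).1 h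
    apply hqW
    rw [h1]
    exact hW.one
  refine ⟨hnu, ?_⟩
  intro a b hab
  by_contra hcon
  push Not at hcon
  obtain ⟨ha, hb⟩ := hcon
  have hq0 := hqm.ne_zero
  have ha0 : a ≠ 0 := by
    rintro rfl
    rw [zero_mul] at hab
    exact hq0 hab
  have hb0 : b ≠ 0 := by
    rintro rfl
    rw [mul_zero] at hab
    exact hq0 hab
  have hdeg := natDegree_mul ha0 hb0
  rw [← hab] at hdeg
  have hpos : ∀ c : K[X], c ≠ 0 → ¬ IsUnit c → 0 < c.natDegree := by
    intro c hc hcu
    by_contra h
    have h0 : c.natDegree = 0 := by omega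
    apply hcu
    rw [eq_C_of_natDegree_eq_zero h0] at hc ⊢
    exact isUnit_C.2 (isUnit_iff_ne_zero.2 fun h => hc (by rw [h, C_0]))
  have h1 := hpos a ha0 ha
  have h2 := hpos b hb0 hb
  apply hqW
  rw [hab]
  exact hW.mul _ (hmin' a ha0 (by omega)) _ (hmin' b hb0 (by omega))

/-- Any two elements of a Hua system over a field `K` lie in a field generated by one element. -/
theorem exists_field' (S : H.Scal K) {x : A} (hx : ∀ s : K, x - s • H.one ≠ 0) :
    ∃ (L : Type) (_ : Field L) (_ : Algebra K L) (φ : L →ₗ[K] A) (t : L),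
      Function.Injective φ ∧ φ 1 = H.one ∧ φ t = x ∧
      (∀ u, H.inv (φ u) = φ u⁻¹) ∧ (∀ u v, H.U (φ u) (φ v) = φ (u * u * v)) ∧
      ∀ u : L, ∃ f g : K[X], aeval t g ≠ 0 ∧ u = aeval t f / aeval t g := by
  obtain ⟨W, hW, hmax⟩ := exists_max S hx
  by_cases hall : ∀ f : K[X], f ≠ 0 → f ∈ W
  · -- the rational function field
    have hInT : ∀ h : FractionRing K[X], InT W h := by
      intro h
      obtain ⟨a, b, hb, hab⟩ := IsFractionRing.div_surjective (A := K[X]) h
      exact ⟨a, b, hall b (nonZeroDivisors.ne_zero hb), hab.symm⟩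
    have hUn : ∀ h : FractionRing K[X], h ≠ 0 → Un W h := by
      intro h hh
      obtain ⟨a, b, hb, hab⟩ := IsFractionRing.div_surjective (A := K[X]) h
      refine ⟨a, b, hall a ?_, hall b (nonZeroDivisors.ne_zero hb), hab.symm⟩
      rintro rfl
      rw [map_zero, zero_div] at hab
      exact hh hab.symm
    let φ : FractionRing K[X] →ₗ[K] A :=
      { toFun := iota K H x W
        map_add' := fun u v => hW.iota_add S (hInT u) (hInT v)
        map_smul' := by
          intro c u
          have h := hW.iota_smul S (hInT u) c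
          have e : c • u = algebraMap K[X] (FractionRing K[X]) (C c) * u := by
            rw [Algebra.smul_def, IsScalarTower.algebraMap_apply K K[X] (FractionRing K[X])]
            rfl
          rw [e]
          exact h }
    have hφ : ∀ u, φ u = iota K H x W u := fun _ => rfl
    have hae : ∀ f : K[X], aeval (algebraMap K[X] (FractionRing K[X]) X) f
        = algebraMap K[X] (FractionRing K[X]) f := by
      intro f
      rw [aeval_algebraMap_apply, aeval_X_left_apply]
    refine ⟨FractionRing K[X], inferInstance, inferInstance, φ,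
      algebraMap K[X] (FractionRing K[X]) X, ?_, ?_, ?_, ?_, ?_, ?_⟩
    · rw [injective_iff_map_eq_zero]
      intro u hu
      by_contra h
      exact hW.iota_ne S (hUn u h) hu
    · exact hW.iota_one S
    · rw [hφ, hW.iota_poly S, psi_X]
    · intro u
      by_cases h : u = 0
      · subst h
        rw [map_zero, H.inv_zero, _root_.inv_zero, map_zero]
      · exact hW.iota_inv S (hUn u h)
    · intro u v
      by_cases h : u = 0
      · subst h
        rw [map_zero, U_zero', zero_mul, zero_mul, map_zero]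
      · exact hW.iota_U S (hUn u h) (hInT v)
    · intro u
      obtain ⟨a, b, hb, hab⟩ := IsFractionRing.div_surjective (A := K[X]) u
      refine ⟨a, b, ?_, ?_⟩
      · rw [hae]
        exact α_ne (nonZeroDivisors.ne_zero hb)
      · rw [hae, hae]
        exact hab.symm
  · -- the algebraic case
    obtain ⟨q, hqm, hqi, hqW, hn⟩ := hW.first hall
    have hs := step hW S q hn hqm hqi rfl hqW
    have hq0 : psi K H x q = 0 := by
      by_contra h
      obtain ⟨W', h1, h2, h3⟩ := hW.extend hs h
      exact hqW (hmax W' h3 h1 h2)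
    have hqq : ∀ g : K[X], psi K H x (q * q * g) = 0 := by
      intro g
      have h := hs 1 hW.one g
      rw [one_mul, hq0, U_zero'] at h
      exact h.symm
    have hwq : ∀ w ∈ W, psi K H x (w * q) = 0 := by
      intro w hw
      by_contra h
      have h1 := hs w hw 1
      have e : w * q * (w * q) * 1 = q * q * (w * w) := by ring
      rw [e, hqq, psi_one] at h1
      exact H.one_ne (H.U_inj h h1)
    have hq1 : q ≠ 1 := fun h => hqi.not_isUnit (h ▸ isUnit_one)
    have hdiv : ∀ f : K[X], ∃ a r : K[X], f = q * a + r ∧ (r = 0 ∨ r ∈ W) := by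
      intro f
      refine ⟨f /ₘ q, f %ₘ q, ?_, ?_⟩
      · have := modByMonic_add_div f q
        rw [add_comm] at this
        exact this.symm
      · by_cases h : f %ₘ q = 0
        · exact Or.inl h
        · exact Or.inr (hn _ h (natDegree_modByMonic_lt f hqm hq1))
    have hqf : ∀ f : K[X], psi K H x (q * f) = 0 := by
      intro f
      obtain ⟨a, r, rfl, hr⟩ := hdiv f
      have e : q * (q * a + r) = q * q * a + r * q := by ring
      rw [e, map_add, hqq, zero_add]
      rcases hr with rfl | hr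
      · rw [zero_mul, map_zero]
      · exact hwq r hr
    have : Fact (Irreducible q) := ⟨hqi⟩
    have hwd : ∀ f g : K[X], AdjoinRoot.mk q f = AdjoinRoot.mk q g →
        psi K H x f = psi K H x g := by
      intro f g h
      rw [AdjoinRoot.mk_eq_mk] at h
      obtain ⟨m, hm⟩ := h
      rw [← sub_eq_zero, ← map_sub, hm, hqf]
    have hsurj := AdjoinRoot.mk_surjective (g := q)
    let ρ : AdjoinRoot q → K[X] := Function.surjInv hsurj
    have hρ : ∀ u, AdjoinRoot.mk q (ρ u) = u := Function.surjInv_eq hsurj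
    have hφ0 : ∀ f : K[X], psi K H x (ρ (AdjoinRoot.mk q f)) = psi K H x f := fun f =>
      hwd _ _ (hρ _)
    let φ : AdjoinRoot q →ₗ[K] A :=
      { toFun := fun u => psi K H x (ρ u)
        map_add' := by
          intro u v
          rw [← map_add]
          apply hwd
          rw [hρ, map_add, hρ, hρ]
        map_smul' := by
          intro c u
          rw [RingHom.id_apply, ← map_smul]
          apply hwd
          have h := AdjoinRoot.smul_mk (f := q) c (ρ u)
          rw [hρ] at h
          rw [hρ, h] }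
    have hφ : ∀ f : K[X], φ (AdjoinRoot.mk q f) = psi K H x f := hφ0
    have hlaw : ∀ f g : K[X], H.U (psi K H x f) (psi K H x g) = psi K H x (f * f * g) := by
      intro f g
      obtain ⟨a, r, rfl, hr⟩ := hdiv f
      have e1 : psi K H x (q * a + r) = psi K H x r := by rw [map_add, hqf, zero_add]
      have e2 : (q * a + r) * (q * a + r) * g = q * ((q * a * a + 2 * a * r) * g) + r * r * g := by
        ring
      rw [e1, e2, map_add, hqf, zero_add]
      rcases hr with rfl | hr
      · rw [map_zero, U_zero', zero_mul, zero_mul, map_zero]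
      · exact (hW.good r hr).2 g
    have hne : ∀ u : AdjoinRoot q, u ≠ 0 → φ u ≠ 0 := by
      intro u hu
      obtain ⟨f, rfl⟩ := hsurj u
      obtain ⟨a, r, rfl, hr⟩ := hdiv f
      rw [hφ, map_add, hqf, zero_add]
      rcases hr with rfl | hr
      · exfalso
        apply hu
        rw [add_zero, map_mul, AdjoinRoot.mk_self, zero_mul]
      · exact (hW.good r hr).1
    have hU : ∀ u v, H.U (φ u) (φ v) = φ (u * u * v) := by
      intro u v
      obtain ⟨f, rfl⟩ := hsurj u
      obtain ⟨g, rfl⟩ := hsurj v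
      rw [hφ, hφ, hlaw, ← map_mul, ← map_mul, hφ]
    refine ⟨AdjoinRoot q, inferInstance, inferInstance, φ, AdjoinRoot.root q, ?_, ?_, ?_, ?_, hU,
      ?_⟩
    · rw [injective_iff_map_eq_zero]
      intro u hu
      by_contra h
      exact hne u h hu
    · have h := hφ 1
      rwa [map_one, psi_one] at h
    · have h := hφ X
      rwa [AdjoinRoot.mk_X, psi_X] at h
    · intro u
      by_cases h : u = 0
      · subst h
        rw [map_zero, H.inv_zero, _root_.inv_zero, map_zero]
      · apply H.U_inj' (hne u h)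
        rw [H.U_self, hU]
        congr 1
        field_simp
    · intro u
      obtain ⟨f, rfl⟩ := hsurj u
      refine ⟨f, 1, ?_, ?_⟩
      · rw [map_one]
        exact one_ne_zero
      · rw [map_one, div_one, AdjoinRoot.aeval_eq]

/-- Any two elements of a Hua system over a field `K` lie in a field generated by one element. -/
theorem exists_field (S : H.Scal K) (x : A) :
    ∃ (L : Type) (_ : Field L) (_ : Algebra K L) (φ : L →ₗ[K] A) (t : L),
      Function.Injective φ ∧ φ 1 = H.one ∧ φ t = x ∧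
      (∀ u, H.inv (φ u) = φ u⁻¹) ∧ (∀ u v, H.U (φ u) (φ v) = φ (u * u * v)) ∧
      ∀ u : L, ∃ f g : K[X], aeval t g ≠ 0 ∧ u = aeval t f / aeval t g := by
  by_cases hx : ∀ s : K, x - s • H.one ≠ 0
  · exact exists_field' S hx
  · push Not at hx
    obtain ⟨s, hs⟩ := hx
    refine ⟨K, inferInstance, inferInstance, LinearMap.toSpanSingleton K A H.one, s, ?_, ?_, ?_,
      ?_, ?_, ?_⟩
    · rw [injective_iff_map_eq_zero]
      intro t ht
      rw [LinearMap.toSpanSingleton_apply] at ht
      exact (smul_eq_zero.mp ht).resolve_right H.one_ne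
    · rw [LinearMap.toSpanSingleton_apply, one_smul]
    · rw [LinearMap.toSpanSingleton_apply, ← sub_eq_zero.mp hs]
    · intro t
      rw [LinearMap.toSpanSingleton_apply, LinearMap.toSpanSingleton_apply]
      by_cases ht : t = 0
      · subst ht
        rw [zero_smul, H.inv_zero, _root_.inv_zero, zero_smul]
      · rw [S.inv_smul t _ ht, H.inv_one]
    · intro t r
      rw [LinearMap.toSpanSingleton_apply, LinearMap.toSpanSingleton_apply,
        LinearMap.toSpanSingleton_apply, S.U_smul_left, S.U_smul, H.U_one, smul_smul]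
    · intro u
      refine ⟨C u, 1, ?_, ?_⟩
      · rw [map_one]
        exact one_ne_zero
      · rw [map_one, div_one, aeval_C]
        rfl

end Pool.Agent.HuaTwo61
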