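import Mathlib
import Pool.Agent.HuaTwo61.Max
import Pool.Agent.HuaOne84.Defs

/-!
# Two points of a Hua system over any field and in every prime characteristic
-/

set_option autoImplicit false

open Polynomial

namespace Pool.Agent.HuaTwo61

open Pool.Agent.HuaTop84 Pool.Agent.HuaVal Pool.Agent.HuaOne84 Pool.Agent.HuaOne84.HS

/-! ### Scalars in characteristic `p` -/

section scal

variable {p : ℕ} [Fact p.Prime] {A : Type} [AddCommGroup A] [Module (ZMod p) A] (H : HS A)

omit H in
theorem nsmul_ne {n : ℕ} (h0 : n ≠ 0) (hn : n < p) {a : A} (ha : n • a = 0) : a = 0 := by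
  rw [← Nat.cast_smul_eq_nsmul (ZMod p)] at ha
  refine (smul_eq_zero.1 ha).resolve_left ?_
  rw [ZMod.natCast_eq_zero_iff]
  intro h
  exact h0 (Nat.eq_zero_of_dvd_of_lt h hn)

theorem smul_inv_smulP : ∀ (n : ℕ) (u : A), n < p → n ≠ 0 → n • H.inv (n • u) = H.inv u := by
  intro n
  induction n with
  | zero => intro u _ h; exact absurd rfl h
  | succ n ih =>
    intro u hlt _
    have hlt' : n < p := by omega
    by_cases hu : u = 0
    · subst hu
      rw [smul_zero, H.inv_zero, smul_zero]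
    by_cases hn : n = 0
    · subst hn
      rw [zero_add, one_smul, one_smul]
    have hnu : n • u ≠ 0 := fun h => hu (nsmul_ne hn hlt' h)
    have hsu : n • u + u ≠ 0 := by
      intro h
      apply hu
      apply nsmul_ne (Nat.succ_ne_zero n) hlt
      rw [succ_nsmul]
      exact h
    -- U (n u) (inv u) = n ^ 2 u
    have h1 : H.U (n • u) (H.inv u) = n • n • u := by
      rw [← ih u hlt' hn, map_nsmul, H.U_self]
    have h2 := H.inv_add (n • u) u hnu hu hsu
    have h3 : H.U (H.inv (n • u)) (H.inv (H.inv (n • u) + H.inv u)) =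
        H.inv ((n * (n + 1)) • u) := by
      rw [← H.inv_inv (H.U (H.inv (n • u)) (H.inv (H.inv (n • u) + H.inv u))),
        H.inv_U _ _ (H.inv_ne _ hnu), H.inv_inv, H.inv_inv, map_add, H.U_self, h1]
      congr 1
      rw [← mul_smul, ← add_nsmul]
      congr 1
      ring
    rw [h3] at h2
    have h4 := ih (n • u + u) hlt' hn
    have e1 : n • (n • u + u) = (n * (n + 1)) • u := by
      rw [← succ_nsmul, ← mul_smul]
    rw [e1] at h4
    have h5 : n • H.inv (n • u + u) = H.inv u - H.inv (n • u + u) := by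
      have h6 := congrArg (fun z => n • z) h2
      simp only [nsmul_sub] at h6
      rw [ih u hlt' hn, h4] at h6
      exact h6
    rw [succ_nsmul u n, succ_nsmul, h5]
    abel

/-- In a Hua system of exponent `p` the inversion inverts scalars. -/
theorem scalP : H.Scal (ZMod p) := by
  constructor
  · intro t x ht
    have h1 : t = ((t.val : ℕ) : ZMod p) := (ZMod.natCast_zmod_val t).symm
    have hv : t.val ≠ 0 := by
      intro h
      apply ht
      rw [h1, h, Nat.cast_zero]
    have h2 := smul_inv_smulP H t.val x (ZMod.val_lt t) hv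
    rw [← Nat.cast_smul_eq_nsmul (ZMod p), ← Nat.cast_smul_eq_nsmul (ZMod p), ← h1] at h2
    rw [← h2, smul_smul, inv_mul_cancel₀ ht, one_smul]
  · intro a t x
    exact ZMod.map_smul (H.U a) t x

end scal

/-! ### The field of two points -/

/-- The Hua system version over a field `K`. -/
theorem twoPointK (K : Type) [Field K] (A : Type) [AddCommGroup A] [Module K A]
    (j : A → Option A → Option A) (hj : IsHua j)
    (hK : ∀ (t : K) (a b c : A), t ≠ 0 → a ≠ 0 → b ≠ 0 → j a (some b) = some c →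
      j a (some (t • b)) = some (t⁻¹ • c))
    (e x : A) (he : e ≠ 0) :
    ∃ (L : Type) (_ : Field L) (_ : Algebra K L) (φ : L →ₗ[K] A) (t : L),
      Function.Injective φ ∧ φ 1 = e ∧ φ t = x ∧ IsFieldPart j φ ∧
      ∀ u : L, ∃ f g : K[X], aeval t g ≠ 0 ∧ u = aeval t f / aeval t g := by
  obtain ⟨J, hJ, hjJ⟩ := exists_J hj
  set H := toHS hJ e he with hH
  have hsm : ∀ (t : K) (a b : A), t ≠ 0 → a ≠ 0 → J a (t • b) = t⁻¹ • J a b := by
    intro t a b ht ha
    by_cases hb : b = 0
    · subst hb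
      rw [smul_zero, hJ.zero a ha, smul_zero]
    have h1 := hK t a b _ ht ha hb (hjJ a b ha hb)
    rw [hjJ a (t • b) ha (smul_ne_zero ht hb)] at h1
    exact Option.some.inj h1
  have hU : ∀ (a x : A), a ≠ 0 → H.U a x = J a (J e x) := by
    intro a x ha
    exact H_of_ne ha
  have S : H.Scal K := by
    constructor
    · intro t x ht
      exact hsm t e x ht he
    · intro a t x
      by_cases ht : t = 0
      · subst ht; simp
      by_cases ha : a = 0
      · subst ha
        rw [U_zero', U_zero', smul_zero]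
      rw [hU a _ ha, hU a _ ha, hsm t e x ht he, hsm t⁻¹ a _ (inv_ne_zero ht) ha, inv_inv]
  obtain ⟨L, iF, iA, φ, t, h1, h2, h3, h4, h5, h6⟩ := exists_field S x
  refine ⟨L, iF, iA, φ, t, h1, h2, h3, ?_, h6⟩
  intro u v hu hv
  have hu' : φ u ≠ 0 := by
    intro h
    apply hu
    apply h1
    rw [h, map_zero]
  have hv' : φ v ≠ 0 := by
    intro h
    apply hv
    apply h1
    rw [h, map_zero]
  rw [hjJ _ _ hu' hv']
  congr 1
  rw [← h5, ← h4, hU _ _ hu']
  change _ = J (φ u) (J e (J e (φ v)))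
  rw [hJ.inv e _ he]

/-- A subgroup of a field which contains `1` and `t` and is closed under `u² v⁻¹` contains the
field generated by `t`. -/
theorem sub_all {p : ℕ} [Fact p.Prime] {L : Type} [Field L] [Algebra (ZMod p) L] (t : L)
    (S : AddSubgroup L) (h1 : (1 : L) ∈ S) (ht : t ∈ S)
    (hS : ∀ u v : L, u ∈ S → v ∈ S → u ≠ 0 → v ≠ 0 → u * u * v⁻¹ ∈ S)
    (hgen : ∀ u : L, ∃ f g : (ZMod p)[X], aeval t g ≠ 0 ∧ u = aeval t f / aeval t g) (u : L) :
    u ∈ S := by
  have hinv : ∀ u, u ∈ S → u⁻¹ ∈ S := by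
    intro u hu
    by_cases h : u = 0
    · subst h; rw [_root_.inv_zero]; exact S.zero_mem
    · have := hS 1 u h1 hu one_ne_zero h
      rwa [one_mul, one_mul] at this
  have hsq : ∀ u v, u ∈ S → v ∈ S → u * u * v ∈ S := by
    intro u v hu hv
    by_cases h : u = 0
    · subst h; rw [zero_mul, zero_mul]; exact S.zero_mem
    by_cases h' : v = 0
    · subst h'; rw [mul_zero]; exact S.zero_mem
    have := hS u v⁻¹ hu (hinv v hv) h (inv_ne_zero h')
    rwa [inv_inv] at this
  have hpow : ∀ n : ℕ, t ^ n ∈ S := by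
    intro n
    induction n using Nat.strong_induction_on with
    | _ n ih =>
      rcases n with _ | _ | n
      · rw [pow_zero]; exact h1
      · rw [zero_add, pow_one]; exact ht
      · have := hsq t (t ^ n) ht (ih n (by omega))
        have e : t ^ (n + 1 + 1) = t * t * t ^ n := by ring
        rwa [e]
  have hpoly : ∀ f : (ZMod p)[X], aeval t f ∈ S := by
    intro f
    rw [aeval_eq_sum_range]
    apply sum_mem
    intro i _
    have e : f.coeff i • t ^ i = ((f.coeff i).val) • t ^ i := by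
      rw [← Nat.cast_smul_eq_nsmul (ZMod p), ZMod.natCast_zmod_val]
    rw [e]
    exact S.nsmul_mem (hpow i) _
  obtain ⟨f, g, hg, rfl⟩ := hgen u
  have h2 := hsq _ _ (hinv _ (hpoly g)) (hpoly (g * f))
  have e : (aeval t g)⁻¹ * (aeval t g)⁻¹ * aeval t (g * f) = aeval t f / aeval t g := by
    rw [map_mul]
    field_simp
  rwa [e] at h2

/-- In a Hua system `j` on an abelian group `A` of exponent `p` any two points `e ≠ 0`, `x`
generate the Hua system of a commutative field `L`. -/
theorem twoPoint (p : ℕ) [Fact p.Prime] (A : Type) [AddCommGroup A] (hp : ∀ a : A, p • a = 0)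
    (j : A → Option A → Option A) (hj : IsHua j) (e x : A) (he : e ≠ 0) :
    ∃ (L : Type) (_ : Field L) (_ : Algebra (ZMod p) L) (φ : L →+ A) (t : L),
      Function.Injective φ ∧ φ 1 = e ∧ φ t = x ∧ IsFieldPart j φ ∧
      (∀ u : L, ∃ f g : (ZMod p)[X], aeval t g ≠ 0 ∧ u = aeval t f / aeval t g) ∧
      (∀ B : AddSubgroup A, e ∈ B → x ∈ B →
        (∀ a b c : A, a ∈ B → b ∈ B → a ≠ 0 → b ≠ 0 → j a (some b) = some c → c ∈ B) →
        ∀ u, φ u ∈ B) := by
  let _ : Module (ZMod p) A := AddCommGroup.zmodModule hp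
  obtain ⟨J, hJ, hjJ⟩ := exists_J hj
  have hK : ∀ (t : ZMod p) (a b c : A), t ≠ 0 → a ≠ 0 → b ≠ 0 → j a (some b) = some c →
      j a (some (t • b)) = some (t⁻¹ • c) := by
    intro t a b c ht ha hb hc
    have S := scalP (p := p) (toHS hJ a ha)
    rw [hjJ a b ha hb] at hc
    have htb : t • b ≠ 0 := by
      intro h
      apply hb
      have h2 : t⁻¹ • (t • b) = 0 := by rw [h, smul_zero]
      rwa [smul_smul, inv_mul_cancel₀ ht, one_smul] at h2
    rw [hjJ a _ ha htb, ← Option.some.inj hc]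
    congr 1
    exact S.inv_smul t b ht
  obtain ⟨L, iF, iA, φ, t, h1, h2, h3, h4, h5⟩ := twoPointK (ZMod p) A j hj hK e x he
  refine ⟨L, iF, iA, φ.toAddMonoidHom, t, h1, h2, h3, h4, h5, ?_⟩
  intro B heB hxB hB u
  have key := sub_all t (B.comap φ.toAddMonoidHom) (by
    show φ 1 ∈ B
    rw [h2]; exact heB) (by
    show φ t ∈ B
    rw [h3]; exact hxB) (by
    intro u v hu hv hu0 hv0
    exact hB (φ u) (φ v) _ hu hv (fun h => hu0 (h1 (by rw [h, map_zero])))
      (fun h => hv0 (h1 (by rw [h, map_zero]))) (h4 u v hu0 hv0)) h5 u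
  exact key

end Pool.Agent.HuaTwo61

namespace Pool.Agent.HuaTwo61

open Pool.Agent.HuaTop84 Pool.Agent.HuaVal Pool.Agent.HuaOne84 Pool.Agent.HuaOne84.HS

/-- The version for the elementary data of a Hua system of exponent `p`. -/
theorem exists_fieldP {p : ℕ} [Fact p.Prime] {A : Type} [AddCommGroup A] [Module (ZMod p) A]
    (H : HS A) (x : A) :
    ∃ (L : Type) (_ : Field L) (_ : Algebra (ZMod p) L) (φ : L →ₗ[ZMod p] A) (t : L),
      Function.Injective φ ∧ φ 1 = H.one ∧ φ t = x ∧
      (∀ u, H.inv (φ u) = φ u⁻¹) ∧ (∀ u v, H.U (φ u) (φ v) = φ (u * u * v)) ∧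
      ∀ u : L, ∃ f g : (ZMod p)[X], aeval t g ≠ 0 ∧ u = aeval t f / aeval t g :=
  exists_field (scalP H) x

/-- The field is generated by `t`: every subset which contains `1` and `t` and is closed under
`-`, `*` and inverses is everything. -/
theorem gen_top {p : ℕ} [Fact p.Prime] {L : Type} [Field L] [Algebra (ZMod p) L] {t : L}
    (hgen : ∀ u : L, ∃ f g : (ZMod p)[X], aeval t g ≠ 0 ∧ u = aeval t f / aeval t g)
    (F : Set L) (h1 : (1 : L) ∈ F) (ht : t ∈ F) (hsub : ∀ u v, u ∈ F → v ∈ F → u - v ∈ F)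
    (hmul : ∀ u v, u ∈ F → v ∈ F → u * v ∈ F) (hinv : ∀ u, u ∈ F → u⁻¹ ∈ F) (u : L) : u ∈ F := by
  have h0 : (0 : L) ∈ F := by
    have := hsub 1 1 h1 h1
    rwa [sub_self] at this
  have hneg : ∀ u, u ∈ F → -u ∈ F := by
    intro u hu
    have := hsub 0 u h0 hu
    rwa [zero_sub] at this
  have hadd : ∀ u v, u ∈ F → v ∈ F → u + v ∈ F := by
    intro u v hu hv
    have := hsub u (-v) hu (hneg v hv)
    rwa [sub_neg_eq_add] at this
  let F' : Subfield L :=
    { carrier := F
      mul_mem' := fun {a b} ha hb => hmul a b ha hb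
      one_mem' := h1
      add_mem' := fun {a b} ha hb => hadd a b ha hb
      zero_mem' := h0
      neg_mem' := fun {a} ha => hneg a ha
      inv_mem' := fun a ha => hinv a ha }
  have hpoly : ∀ f : (ZMod p)[X], aeval t f ∈ F' := by
    intro f
    rw [aeval_eq_sum_range]
    apply sum_mem
    intro i _
    have e : f.coeff i • t ^ i = ((f.coeff i).val) • t ^ i := by
      rw [← Nat.cast_smul_eq_nsmul (ZMod p), ZMod.natCast_zmod_val]
    rw [e]
    exact nsmul_mem (pow_mem (show t ∈ F' from ht) i) _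
  obtain ⟨f, g, hg, rfl⟩ := hgen u
  exact div_mem (hpoly f) (hpoly g)

/-- denominators -/
theorem gen_denom {p : ℕ} [Fact p.Prime] {L : Type} [Field L] [Algebra (ZMod p) L] {t : L}
    (hgen : ∀ u : L, ∃ f g : (ZMod p)[X], aeval t g ≠ 0 ∧ u = aeval t f / aeval t g) :
    (∀ u : L, ∃ f g : (ZMod p)[X], aeval t g ≠ 0 ∧ aeval t g * u = aeval t f) := by
  intro u
  obtain ⟨f, g, hg, rfl⟩ := hgen u
  exact ⟨f, g, hg, by field_simp⟩

end Pool.Agent.HuaTwo61
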